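import Pool.Agent.H960R3.DL3

/-!
# MP_0abb29_gt, Q1: products of discretely Lindelöf spaces with compact spaces

For every space `X` which is not Lindelöf there is a compact Hausdorff space `K` (the one-point
compactification of the discrete space `X × ℕ`) such that `X × K` is not discretely Lindelöf.
Together with the discretely Lindelöf `T₁` space which is not weakly Lindelöf (in the starting
files for MP_8c175f_gt) this gives a negative answer to Q1.
-/

set_option autoImplicit false

open Set Topology Filter

namespace Pool.Agent.Results.MP_0abb29_gt.ProductFails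

/-- The closure of every discrete subset is Lindelöf. -/
def DiscretelyLindelof (X : Type) [TopologicalSpace X] : Prop :=
  ∀ D : Set X, DiscreteTopology D → IsLindelof (closure D)

/-- The set `X × ℕ`, with the discrete topology. -/
def Dsc (X : Type) : Type := X × ℕ

instance (X : Type) : TopologicalSpace (Dsc X) := ⊥

instance (X : Type) : DiscreteTopology (Dsc X) := ⟨rfl⟩

/-- The point `(x, n)` of the one-point compactification of `X × ℕ`. -/
def pt {X : Type} (x : X) (n : ℕ) : OnePoint (Dsc X) := OnePoint.some (X := Dsc X) (x, n)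

theorem pt_inj {X : Type} {x y : X} {m n : ℕ} (h : pt x m = pt y n) : x = y ∧ m = n := by
  have h1 := OnePoint.coe_injective h
  exact ⟨congrArg Prod.fst h1, congrArg Prod.snd h1⟩

theorem isOpen_pt {X : Type} (x : X) (n : ℕ) : IsOpen ({pt x n} : Set (OnePoint (Dsc X))) := by
  have h := (OnePoint.isOpenEmbedding_coe (X := Dsc X)).isOpenMap
    ({((x, n) : Dsc X)} : Set (Dsc X)) (isOpen_discrete _)
  have e : (OnePoint.some '' ({((x, n) : Dsc X)} : Set (Dsc X))) = {pt x n} :=
    image_singleton (f := OnePoint.some) (a := ((x, n) : Dsc X))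
  rw [← e]
  exact h

theorem tendsto_pt {X : Type} (x : X) : Tendsto (fun n : ℕ => pt x n) atTop
    (𝓝 OnePoint.infty) := by
  refine OnePoint.tendsto_coe_infty.comp (?_ : Tendsto (fun n : ℕ => ((x, n) : Dsc X)) atTop _)
  rw [coclosedCompact_eq_cocompact, cocompact_eq_cofinite, ← Nat.cofinite_eq_atTop]
  refine Function.Injective.tendsto_cofinite ?_
  intro a b hab
  exact congrArg Prod.snd hab

theorem key (X : Type) [TopologicalSpace X]
    (h : DiscretelyLindelof (X × OnePoint (Dsc X))) : LindelofSpace X := by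
  set D : Set (X × OnePoint (Dsc X)) := {p | ∃ n : ℕ, p.2 = pt p.1 n} with hD
  have hdisc : DiscreteTopology D := by
    rw [discreteTopology_subtype_iff']
    rintro ⟨x, k⟩ ⟨n, hn⟩
    simp only at hn
    subst hn
    refine ⟨Prod.snd ⁻¹' {pt x n}, (isOpen_pt x n).preimage continuous_snd, ?_⟩
    ext ⟨y, l⟩
    simp only [mem_inter_iff, mem_preimage, mem_singleton_iff, Prod.mk.injEq]
    constructor
    · rintro ⟨h1, m, hm⟩
      simp only at hm
      rw [h1] at hm
      exact ⟨(pt_inj hm).1.symm, h1⟩
    · rintro ⟨h1, h2⟩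
      subst h1 h2
      exact ⟨rfl, n, rfl⟩
  have hcl := h D hdisc
  set E : Set (X × OnePoint (Dsc X)) := Prod.snd ⁻¹' {OnePoint.infty} with hE
  have hEc : IsClosed E := (OnePoint.isClosed_infty).preimage continuous_snd
  have hED : E ⊆ closure D := by
    rintro ⟨x, k⟩ hk
    have hk' : k = OnePoint.infty := hk
    subst hk'
    have h2 : Tendsto (fun n : ℕ => ((x, pt x n) : X × OnePoint (Dsc X))) atTop
        (𝓝 (x, OnePoint.infty)) :=
      Tendsto.prodMk_nhds tendsto_const_nhds (tendsto_pt x)
    exact mem_closure_of_tendsto h2 (Eventually.of_forall fun n => ⟨n, rfl⟩)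
  have hEl : IsLindelof E := hcl.of_isClosed_subset hEc hED
  have himg := hEl.image (continuous_fst (X := X) (Y := OnePoint (Dsc X)))
  have huniv : Prod.fst '' E = (univ : Set X) := by
    ext x
    simp only [mem_image, mem_univ, iff_true]
    exact ⟨(x, OnePoint.infty), rfl, rfl⟩
  rw [huniv] at himg
  exact isLindelof_univ_iff.1 himg

theorem prod_lindelof (X K : Type) [TopologicalSpace X] [TopologicalSpace K] [CompactSpace K]
    [LindelofSpace X] : IsLindelof (univ : Set (X × K)) := by
  refine isLindelof_of_countable_subcover fun {ι} U hU hc => ?_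
  have h1 : ∀ x : X, ∃ t : Finset ι, ∃ V : Set X, IsOpen V ∧ x ∈ V ∧
      V ×ˢ (univ : Set K) ⊆ ⋃ i ∈ t, U i := by
    intro x
    have hcpt : IsCompact (({x} : Set X) ×ˢ (univ : Set K)) := isCompact_singleton.prod isCompact_univ
    obtain ⟨t, ht⟩ := hcpt.elim_finite_subcover U hU (fun p _ => hc (mem_univ p))
    obtain ⟨V, W, hV, hW, hxV, hKW, hVW⟩ := generalized_tube_lemma isCompact_singleton
      isCompact_univ (isOpen_biUnion fun i _ => hU i) ht
    exact ⟨t, V, hV, hxV rfl, (prod_mono le_rfl hKW).trans hVW⟩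
  choose t V hV hxV ht using h1
  obtain ⟨r, hr, hr2⟩ := (isLindelof_univ (X := X)).elim_countable_subcover V hV
    (fun x _ => mem_iUnion.2 ⟨x, hxV x⟩)
  refine ⟨⋃ x ∈ r, (t x : Set ι), hr.biUnion fun x _ => (t x).countable_toSet, ?_⟩
  rintro ⟨y, k⟩ -
  obtain ⟨x, hx, hy⟩ := mem_iUnion₂.1 (hr2 (mem_univ y))
  obtain ⟨i, hi, hi2⟩ := mem_iUnion₂.1 (ht x (⟨hy, mem_univ k⟩ : (y, k) ∈ V x ×ˢ univ))
  exact mem_iUnion₂.2 ⟨i, mem_iUnion₂.2 ⟨x, hx, hi⟩, hi2⟩

/-- There are a discretely Lindelöf `T₁` space `X` and a compact Hausdorff space `K` such that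
`X × K` is not discretely Lindelöf. Moreover a space `X` is Lindelöf if and only if `X × K` is
discretely Lindelöf for every compact Hausdorff space `K`. -/
theorem result :
    (∃ (X : Type) (_ : TopologicalSpace X) (K : Type) (_ : TopologicalSpace K),
      T1Space X ∧ DiscretelyLindelof X ∧ CompactSpace K ∧ T2Space K ∧
        ¬ DiscretelyLindelof (X × K)) ∧
    ∀ (X : Type) [TopologicalSpace X], LindelofSpace X ↔
      ∀ (K : Type) [TopologicalSpace K], CompactSpace K → T2Space K →
        DiscretelyLindelof (X × K) := by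
  refine ⟨?_, ?_⟩
  · obtain ⟨X, i1, h1, h2, 𝒰, hU, hU', hV⟩ := Pool.Agent.H960R3.DL.exists_space
    refine ⟨X, i1, OnePoint (Dsc X), inferInstance, h1, fun D hD => ?_, inferInstance,
      inferInstance, fun h => ?_⟩
    · exact isLindelof_iff_lindelofSpace.2 (h2 D hD)
    · have h3 := key X h
      have h4 : IsLindelof (univ : Set X) := isLindelof_univ
      obtain ⟨r, hr, hr2⟩ := h4.elim_countable_subcover (fun U : 𝒰 => (U : Set X))
        (fun U => hU U U.2) (by rw [← sUnion_eq_iUnion, hU'])
      refine hV (Subtype.val '' r) (by rintro _ ⟨U, -, rfl⟩; exact U.2) (hr.image _) ?_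
      have : ⋃₀ (Subtype.val '' r) = (univ : Set X) := by
        rw [sUnion_image]
        exact univ_subset_iff.1 hr2
      rw [this]
      exact dense_univ
  · intro X i
    constructor
    · intro hX K iK hK1 hK2 D hD
      exact (prod_lindelof X K).of_isClosed_subset isClosed_closure (subset_univ _)
    · intro h
      exact key X (h _ inferInstance inferInstance)

end Pool.Agent.Results.MP_0abb29_gt.ProductFails
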